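import Mathlib

set_option autoImplicit false

namespace Pool.Agent.H.MP_bae42e_co

open Classical

section
variable {V H K : Type} (G : SimpleGraph V) (c : V → K) (pr : V → H) (cp : H → Fin 2 → V)

def NR : Prop := ∀ l1 l2 : List V, l1 ≠ [] → (l1 ++ l2).IsChain G.Adj → (l1 ++ l2).Nodup →
  l1.map c ≠ l2.map c

structure Good : Prop where
  nr : NR G c
  hp : ∀ x a, pr (cp x a) = x
  ha : ∀ x a b, cp x a ≠ cp x b → G.Adj (cp x a) (cp x b)

noncomputable def seg (s : H × Fin 2 × Fin 2) : List V :=
  if cp s.1 s.2.1 = cp s.1 s.2.2 then [cp s.1 s.2.1] else [cp s.1 s.2.1, cp s.1 s.2.2]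

noncomputable def lift : List (H × Fin 2 × Fin 2) → List V
  | [] => []
  | s :: L => seg cp s ++ lift L

def psi (x : H) : Fin 2 → K := fun a => c (cp x a)

def RR (s s' : H × Fin 2 × Fin 2) : Prop := G.Adj (cp s.1 s.2.2) (cp s'.1 s'.2.1)

variable {G c pr cp}

theorem proper (h : NR G c) {u v : V} (huv : G.Adj u v) : c u ≠ c v := by
  intro e
  refine h [u] [v] (by simp) (by simpa using huv) (by simpa using huv.ne) ?_
  simp [e]

theorem lift_append (L1 L2 : List (H × Fin 2 × Fin 2)) :
    lift cp (L1 ++ L2) = lift cp L1 ++ lift cp L2 := by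
  induction L1 with
  | nil => simp [lift]
  | cons s L ih => simp [lift, ih]

theorem seg_col (g : Good G c pr cp) (s : H × Fin 2 × Fin 2) :
    (seg cp s).map c = if psi c cp s.1 s.2.1 = psi c cp s.1 s.2.2 then [psi c cp s.1 s.2.1]
      else [psi c cp s.1 s.2.1, psi c cp s.1 s.2.2] := by
  unfold seg psi
  by_cases h : cp s.1 s.2.1 = cp s.1 s.2.2
  · rw [if_pos h, if_pos (by rw [h])]
    simp
  · rw [if_neg h, if_neg (proper g.nr (g.ha _ _ _ h))]
    simp

theorem lift_col (g : Good G c pr cp) : ∀ L1 L2 : List (H × Fin 2 × Fin 2),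
    L1.map (fun s => (psi c cp s.1, s.2)) = L2.map (fun s => (psi c cp s.1, s.2)) →
    (lift cp L1).map c = (lift cp L2).map c
  | [], [], _ => rfl
  | [], _ :: _, h => by simp at h
  | _ :: _, [], h => by simp at h
  | s :: L1, t :: L2, h => by
    simp only [List.map_cons, List.cons.injEq, Prod.mk.injEq] at h
    simp only [lift, List.map_append]
    rw [lift_col g L1 L2 h.2, seg_col g, seg_col g, h.1.1, h.1.2]

theorem seg_head (s : H × Fin 2 × Fin 2) (l : List V) :
    (seg cp s ++ l).head? = some (cp s.1 s.2.1) := by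
  unfold seg
  split_ifs <;> simp

theorem seg_last (s : H × Fin 2 × Fin 2) : (seg cp s).getLast? = some (cp s.1 s.2.2) := by
  unfold seg
  split_ifs with h
  · simp [h]
  · simp

theorem seg_chain (g : Good G c pr cp) (s : H × Fin 2 × Fin 2) : (seg cp s).IsChain G.Adj := by
  unfold seg
  split_ifs with h
  · simp
  · simpa using g.ha _ _ _ h

theorem lift_chain (g : Good G c pr cp) : ∀ L : List (H × Fin 2 × Fin 2),
    L.IsChain (RR G cp) → (lift cp L).IsChain G.Adj
  | [], _ => by simp [lift]
  | [s], _ => by simpa [lift] using seg_chain g s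
  | s :: t :: L, h => by
    rw [List.isChain_cons_cons] at h
    have ih := lift_chain g (t :: L) h.2
    rw [lift, List.isChain_append]
    refine ⟨seg_chain g s, ih, ?_⟩
    intro x hx y hy
    rw [seg_last] at hx
    rw [lift, seg_head] at hy
    simp only [Option.mem_def, Option.some.injEq] at hx hy
    rw [← hx, ← hy]
    exact h.1

theorem seg_mem (g : Good G c pr cp) (s : H × Fin 2 × Fin 2) (v : V) (h : v ∈ seg cp s) :
    pr v = s.1 := by
  unfold seg at h
  split_ifs at h
  · simp only [List.mem_singleton] at h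
    rw [h, g.hp]
  · simp only [List.mem_cons, List.not_mem_nil, or_false] at h
    rcases h with h | h <;> rw [h, g.hp]

theorem lift_mem (g : Good G c pr cp) : ∀ (L : List (H × Fin 2 × Fin 2)) (v : V),
    v ∈ lift cp L → pr v ∈ L.map Prod.fst
  | [], v, h => by simp [lift] at h
  | s :: L, v, h => by
    rw [lift, List.mem_append] at h
    rw [List.map_cons, List.mem_cons]
    rcases h with h | h
    · exact Or.inl (seg_mem g s v h)
    · exact Or.inr (lift_mem g L v h)

theorem lift_nodup (g : Good G c pr cp) : ∀ L : List (H × Fin 2 × Fin 2),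
    (L.map Prod.fst).Nodup → (lift cp L).Nodup
  | [], _ => by simp [lift]
  | s :: L, h => by
    rw [List.map_cons, List.nodup_cons] at h
    rw [lift, List.nodup_append]
    refine ⟨?_, lift_nodup g L h.2, ?_⟩
    · unfold seg
      split_ifs with e
      · simp
      · simpa using e
    · intro a ha b hb e
      apply h.1
      rw [← seg_mem g s a ha, e]
      exact lift_mem g L b hb

theorem core (g : Good G c pr cp) (L1 L2 : List (H × Fin 2 × Fin 2)) (h0 : L1 ≠ [])
    (h1 : (L1 ++ L2).IsChain (RR G cp)) (h2 : ((L1 ++ L2).map Prod.fst).Nodup)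
    (h3 : L1.map (fun s => (psi c cp s.1, s.2)) = L2.map (fun s => (psi c cp s.1, s.2))) :
    False := by
  refine g.nr (lift cp L1) (lift cp L2) ?_ ?_ ?_ (lift_col g L1 L2 h3)
  · cases L1 with
    | nil => exact absurd rfl h0
    | cons s L =>
      intro e
      have := seg_head (cp := cp) s (lift cp L)
      rw [lift] at e
      rw [e] at this
      simp at this
  · rw [← lift_append]
    exact lift_chain g _ h1
  · rw [← lift_append]
    exact lift_nodup g _ h2

theorem psi_ne (g : Good G c pr cp) {x y : H} {p q : Fin 2} (hxy : x ≠ y)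
    (h : G.Adj (cp x p) (cp y q)) : psi c cp x ≠ psi c cp y := by
  intro e
  refine core g [(x, q, p)] [(y, q, p)] (by simp) ?_ (by simpa using hxy) (by simp [e])
  simpa [RR] using h

variable (G c cp) in
def TT (x : H) (B : Fin 2 → K) (ab : Fin 2 × Fin 2) : Prop :=
  ∃ y, y ≠ x ∧ psi c cp y = B ∧ G.Adj (cp x ab.1) (cp y ab.2)

theorem det (g : Good G c pr cp) {x y : H} {p q a b : Fin 2} (hxy : x ≠ y)
    (h : G.Adj (cp x p) (cp y q)) (h1 : TT G c cp x (psi c cp y) (a, b))
    (h2 : TT G c cp y (psi c cp x) (b, a)) : G.Adj (cp x a) (cp y b) := by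
  by_contra hn
  obtain ⟨w, w1, w2, w3⟩ := h1
  obtain ⟨z, z1, z2, z3⟩ := h2
  have hne := psi_ne g hxy h
  have e1 : w ≠ y := fun e => hn (e ▸ w3)
  have e2 : z ≠ x := fun e => hn (e ▸ z3).symm
  have e3 : w ≠ z := fun e => hne (by rw [← w2, ← z2, e])
  refine core g [(w, q, b), (x, a, p)] [(y, q, b), (z, a, p)] (by simp) ?_ ?_ (by simp [w2, z2])
  · simp only [List.cons_append, List.nil_append, List.isChain_cons_cons, RR,
      List.isChain_singleton, and_true]
    exact ⟨w3.symm, h, z3⟩
  · simp [w1, e1, e3, hxy, e2.symm, z1.symm]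

abbrev Phi (K : Type) : Type := (Fin 2 → K) × ((Fin 2 → K) → Fin 2 × Fin 2 → Prop)

variable (G c cp) in
def phi (x : H) : Phi K := (psi c cp x, TT G c cp x)

noncomputable def rho (s t : Phi K) : Fin 2 × Fin 2 :=
  if h : ∃ ab : Fin 2 × Fin 2, s.2 t.1 ab ∧ t.2 s.1 (ab.2, ab.1) then h.choose else (0, 0)

variable (G cp) in
def HA (x y : H) : Prop := x ≠ y ∧ ∃ p q, G.Adj (cp x p) (cp y q)

theorem rho_ok (g : Good G c pr cp) {x y : H} (h : HA G cp x y) :
    G.Adj (cp x (rho (phi G c cp x) (phi G c cp y)).1)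
      (cp y (rho (phi G c cp x) (phi G c cp y)).2) := by
  obtain ⟨hxy, p, q, h⟩ := h
  have hex : ∃ ab : Fin 2 × Fin 2, (phi G c cp x).2 (phi G c cp y).1 ab ∧
      (phi G c cp y).2 (phi G c cp x).1 (ab.2, ab.1) :=
    ⟨(p, q), ⟨y, hxy.symm, rfl, h⟩, ⟨x, hxy, rfl, h.symm⟩⟩
  unfold rho
  rw [dif_pos hex]
  exact det g hxy h hex.choose_spec.1 hex.choose_spec.2

variable (G c cp) in
noncomputable def lab (z : Fin 2) : Fin 2 → List H → List (H × Fin 2 × Fin 2)
  | _, [] => []
  | e, [x] => [(x, e, z)]
  | e, x :: y :: L => (x, e, (rho (phi G c cp x) (phi G c cp y)).1) ::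
      lab z (rho (phi G c cp x) (phi G c cp y)).2 (y :: L)

theorem lab_fst (z : Fin 2) : ∀ (e : Fin 2) (L : List H), (lab G c cp z e L).map Prod.fst = L
  | _, [] => rfl
  | _, [_] => rfl
  | e, x :: y :: L => by
    rw [lab, List.map_cons, lab_fst z _ (y :: L)]

theorem lab_head (z e : Fin 2) (x : H) (L : List H) :
    ∃ r L', lab G c cp z e (x :: L) = (x, e, r) :: L' := by
  cases L with
  | nil => exact ⟨_, _, rfl⟩
  | cons y L => exact ⟨_, _, rfl⟩

theorem lab_last (z : Fin 2) : ∀ (e : Fin 2) (L : List H) (s : H × Fin 2 × Fin 2),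
    s ∈ (lab G c cp z e L).getLast? → s.2.2 = z ∧ s.1 ∈ L.getLast?
  | _, [], s, h => by simp [lab] at h
  | e, [x], s, h => by
    simp only [lab, List.getLast?_singleton, Option.mem_def, Option.some.injEq] at h
    simp [← h]
  | e, x :: y :: L, s, h => by
    rw [lab] at h
    obtain ⟨r, L', e'⟩ := lab_head (G := G) (c := c) (cp := cp) z
      (rho (phi G c cp x) (phi G c cp y)).2 y L
    rw [e', List.getLast?_cons_cons, ← e'] at h
    rw [List.getLast?_cons_cons]
    exact lab_last z _ (y :: L) s h

theorem lab_chain (g : Good G c pr cp) (z : Fin 2) : ∀ (e : Fin 2) (L : List H),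
    L.IsChain (HA G cp) → (lab G c cp z e L).IsChain (RR G cp)
  | _, [], _ => by simp [lab]
  | _, [_], _ => by simp [lab]
  | e, x :: y :: L, h => by
    rw [List.isChain_cons_cons] at h
    have ih := lab_chain g z (rho (phi G c cp x) (phi G c cp y)).2 (y :: L) h.2
    rw [lab]
    obtain ⟨r, L', e'⟩ := lab_head (G := G) (c := c) (cp := cp) z
      (rho (phi G c cp x) (phi G c cp y)).2 y L
    rw [e'] at ih ⊢
    rw [List.isChain_cons_cons]
    exact ⟨rho_ok g h.1, ih⟩

theorem lab_col (z : Fin 2) : ∀ (e : Fin 2) (L1 L2 : List H),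
    L1.map (phi G c cp) = L2.map (phi G c cp) →
    (lab G c cp z e L1).map (fun s => (psi c cp s.1, s.2)) =
      (lab G c cp z e L2).map (fun s => (psi c cp s.1, s.2))
  | _, [], [], _ => rfl
  | _, [], _ :: _, h => by simp at h
  | _, _ :: _, [], h => by simp at h
  | _, [_], _ :: _ :: _, h => by simp at h
  | _, _ :: _ :: _, [_], h => by simp at h
  | e, [x], [y], h => by
    have h1 : phi G c cp x = phi G c cp y := by simpa using h
    have h2 : psi c cp x = psi c cp y := congrArg Prod.fst h1
    simp [lab, h2]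
  | e, x :: x' :: L1, y :: y' :: L2, h => by
    have h0 : phi G c cp x = phi G c cp y ∧
        (x' :: L1).map (phi G c cp) = (y' :: L2).map (phi G c cp) := by
      rw [List.map_cons, List.map_cons (a := y)] at h
      exact List.cons.inj h
    have h1 : phi G c cp x' = phi G c cp y' := by
      have := h0.2
      rw [List.map_cons, List.map_cons] at this
      exact (List.cons.inj this).1
    have h2 : psi c cp x = psi c cp y := congrArg Prod.fst h0.1
    rw [lab, lab, List.map_cons, List.map_cons, lab_col z _ (x' :: L1) (y' :: L2) h0.2,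
      h0.1, h1, h2]

theorem main (g : Good G c pr cp) (L1 L2 : List H) (h0 : L1 ≠ [])
    (h1 : (L1 ++ L2).IsChain (HA G cp)) (h2 : (L1 ++ L2).Nodup)
    (h3 : L1.map (phi G c cp) = L2.map (phi G c cp)) : False := by
  rw [List.isChain_append] at h1
  obtain ⟨c1, c2, c3⟩ := h1
  cases L2 with
  | nil => exact h0 (by simpa using h3)
  | cons y L2 =>
    obtain ⟨-, a, b, hab⟩ := c3 (L1.getLast h0) (List.getLast?_eq_some_getLast h0) y rfl
    refine core g (lab G c cp a b L1) (lab G c cp a b (y :: L2)) ?_ ?_ ?_ (lab_col a b _ _ h3)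
    · intro e
      have := lab_fst (G := G) (c := c) (cp := cp) a b L1
      rw [e] at this
      exact h0 this.symm
    · rw [List.isChain_append]
      refine ⟨lab_chain g a b _ c1, lab_chain g a b _ c2, ?_⟩
      intro s hs t ht
      obtain ⟨s1, s2⟩ := lab_last a b L1 s hs
      obtain ⟨r, L', e'⟩ := lab_head (G := G) (c := c) (cp := cp) a b y L2
      rw [e'] at ht
      simp only [List.head?_cons, Option.mem_def, Option.some.injEq] at ht
      rw [List.getLast?_eq_some_getLast h0] at s2
      simp only [Option.mem_def, Option.some.injEq] at s2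
      unfold RR
      rw [s1, ← s2, ← ht]
      exact hab
    · rw [List.map_append, lab_fst, lab_fst]
      exact h2

end

theorem nr_of {V K : Type} (G : SimpleGraph V) (c : V → K)
    (h : ∀ (u v : V) (p : G.Walk u v), p.IsPath → Even p.support.length →
      (p.support.map c).take (p.support.length / 2) ≠
        (p.support.map c).drop (p.support.length / 2)) : NR G c := by
  intro l1 l2 h0 h1 h2 h3
  have hne : l1 ++ l2 ≠ [] := by simp [h0]
  have hl : l1.length = l2.length := by simpa using congrArg List.length h3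
  have hs := SimpleGraph.Walk.support_ofSupport hne h1
  refine h _ _ (SimpleGraph.Walk.ofSupport _ hne h1) ?_ ?_ ?_
  · rw [SimpleGraph.Walk.isPath_def, hs]
    exact h2
  · rw [hs, List.length_append, hl]
    exact ⟨_, rfl⟩
  · have e : (l1 ++ l2).length / 2 = (l1.map c).length := by
      rw [List.length_append, List.length_map]
      omega
    rw [hs, e, List.map_append, List.take_left, List.drop_left]
    exact h3

theorem quot_eq {V : Type} {G : SimpleGraph V} {M : G.Subgraph} (hM : M.IsMatching) {u v : V}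
    (h : Quot.mk M.Adj u = Quot.mk M.Adj v) : u = v ∨ M.Adj u v := by
  rw [Quot.eq] at h
  induction h with
  | rel x y h => exact Or.inr h
  | refl x => exact Or.inl rfl
  | symm x y _ ih => exact ih.imp Eq.symm fun h => h.symm
  | trans x y z _ _ ih1 ih2 =>
    rcases ih1 with rfl | h1
    · exact ih2
    · rcases ih2 with rfl | h2
      · exact Or.inr h1
      · exact Or.inl (hM.eq_of_adj_left h1.symm h2)

noncomputable def cpM {V : Type} {G : SimpleGraph V} (M : G.Subgraph) (x : Quot M.Adj)
    (a : Fin 2) : V :=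
  if a = 0 then x.out else if h : ∃ w, M.Adj x.out w then h.choose else x.out

theorem cpM_cases {V : Type} {G : SimpleGraph V} (M : G.Subgraph) (x : Quot M.Adj) (a : Fin 2) :
    cpM M x a = x.out ∨ M.Adj x.out (cpM M x a) := by
  unfold cpM
  split_ifs with h1 h2
  · exact Or.inl rfl
  · exact Or.inr h2.choose_spec
  · exact Or.inl rfl

theorem cpM_mk {V : Type} {G : SimpleGraph V} (M : G.Subgraph) (x : Quot M.Adj) (a : Fin 2) :
    Quot.mk M.Adj (cpM M x a) = x := by
  rcases cpM_cases M x a with h | h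
  · rw [h, Quot.out_eq]
  · rw [← Quot.sound h, Quot.out_eq]

theorem cpM_adj {V : Type} {G : SimpleGraph V} {M : G.Subgraph} (hM : M.IsMatching)
    (x : Quot M.Adj) (a b : Fin 2) (h : cpM M x a ≠ cpM M x b) :
    G.Adj (cpM M x a) (cpM M x b) := by
  rcases quot_eq hM ((cpM_mk M x a).trans (cpM_mk M x b).symm) with e | e
  · exact absurd e h
  · exact M.adj_sub e

theorem cpM_surj {V : Type} {G : SimpleGraph V} {M : G.Subgraph} (hM : M.IsMatching) (v : V) :
    ∃ a, cpM M (Quot.mk M.Adj v) a = v := by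
  rcases quot_eq hM (Quot.out_eq (Quot.mk M.Adj v)) with e | e
  · exact ⟨0, by simp [cpM, e]⟩
  · refine ⟨1, ?_⟩
    have hex : ∃ w, M.Adj (Quot.mk M.Adj v).out w := ⟨v, e⟩
    have : cpM M (Quot.mk M.Adj v) 1 = hex.choose := by
      unfold cpM
      rw [if_neg (by decide), dif_pos hex]
    rw [this]
    exact hM.eq_of_adj_left hex.choose_spec e

end Pool.Agent.H.MP_bae42e_co
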